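import Mathlib
import Pool.Agent.H42CR.Main

/-!
# A Church-Rosser language outside the class of programmed grammars with appearance checking

There is a Church-Rosser language (over a five-letter alphabet) which, up to the empty word, is
generated by no programmed grammar with appearance checking and without erasing rules. So
the class CRL is not contained in `L(P_ac)`.

The language. Input letters are a filler `f` and two pairs of brackets. A system with 72 rules and
without overlaps of left-hand sides (file `H42CR.Sys`) reads words
`f^a₀ x₁ f^a₁ x₂ ... x_N f^a_N`. In each sweep all blocks of fillers are halved; marks on the brackets
record the differences of consecutive block lengths (all of them 1 in the beginning). When all
blocks have length 1, the bracket word is checked for the Dyck property with a stack. All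
words of the language have block lengths increasing by exactly 1 and a Dyck word of brackets
(`H42CR.Snd`, backward invariance of an automaton with counters), and it contains
`f^(2^k) x₁ f^(2^k+1) ... x_N f^(2^k+N)` for every nonempty Dyck word `x` of length `N < 2^k`
(`H42CR.Cmp`).

The lower bound. In a successful derivation label each nonterminal by its final yield and call
a yield large if it contains at least two brackets. Only the multiset of labelled nonterminals
matters for the rest of the derivation. Two large yields of one nonterminal could be exchanged, against
the increasing block lengths, so every form has at most one large yield per nonterminal: the
brackets in large yields form at most `|N|` intervals. Take Dyck words following a complete binary tree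
of depth `d`, each node with `m` opening and `m` closing brackets coloured by one word `u` of length
`m`. Each step moves boundedly many brackets out of large yields, and by an induction
on the depth (as for the cutwidth of complete binary trees) there is a form such that for some node
all `m` bracket pairs have exactly one bracket in large yields. The number of profiles of forms (label,
number of nonterminals of each kind and letter content, position of the large yields, node) is
polynomial in `m`, so two different words `u`, `u'` have the same profile, and replacing the yields
of the form for `u` by those for `u'` gives a word of the language in which the colours `u` and `u'` face
each other at this node, a contradiction.
-/

set_option autoImplicit false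

namespace Pool.Agent.Results.MP_d63846_lc.ChurchRosserNotPac

open Pool.Agent.H42CR

/-- `L` is generated, up to the empty word, by a programmed grammar with appearance checking and
without erasing rules (with terminal alphabet `T` containing the alphabet `A` of `L` through the
injection `e`). -/
def InPac {A : Type} (L : Set (List A)) : Prop :=
  ∃ (T : Type) (e : A ↪ T) (G : ProgGrammar T), G.NonErasing ∧
    G.lang \ {[]} = (List.map e) '' L \ {[]}

/-- There is a Church-Rosser language `L` over a finite alphabet such that `L` minus the empty word is
generated by no programmed grammar without erasing rules and with appearance checking. -/
theorem result : ∃ (A : Type) (_ : Finite A) (L : Set (List A)),
    IsChurchRosser L ∧ ¬ InPac L := by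
  refine ⟨Inp, inferInstance, Lng, lng_cr, ?_⟩
  rintro ⟨T, e, G, hne, h⟩
  exact not_lang T e G hne h

end Pool.Agent.Results.MP_d63846_lc.ChurchRosserNotPac
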